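import Mathlib
import Pool.Agent.NH76.Neck.Limit
import Pool.Agent.NH76.Neck.Round

/-!
# MP_476501_co, Q1: near-exact colour-vector matchings in an edge-coloured even cycle

For every `h ≥ 3`, every `ℓ ≥ 1`, every colouring of the edges of the `2ℓ`-cycle with `h` colours
and every integer point `k` on the segment between the colour vectors of the two perfect matchings,
there is a matching `M` with `|M| ≥ ℓ - h + 2`, `p_M ≤ k` and `‖p_M - k‖₁ ≤ h - 2`.

Proof. A selection `z` of one of the two edges `e_{2i+1}, e_{2i+2}` in every slot `i` is a matching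
up to one edge for every cyclic descent of `z`. A fractional selection `χ` with colour vector
exactly `k`, all of whose compatible `0/1` selections have at most `h - 2` descents, is found by
Brouwer's fixed point theorem applied to a family of unions of moving arcs (with the starting points
of the arcs near the maximisers of a linear functional of the partial sums); it is rounded to a
`0/1` selection with the same colour vector by the integrality of networks.
-/

set_option autoImplicit false

namespace Pool.Agent.Results.MP_476501_co.EvenCycleColourMatching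

open Finset Pool.Agent.NH76.Neck

/-- The cycle `G` of length `2ℓ` has the vertices `0, …, 2ℓ - 1`. Its edges are indexed by
`Fin (2 * ℓ)`: the index `j` stands for the edge `e_{j+1}`, which joins the vertices `j` and
`j + 1` modulo `2ℓ`. This is the set of the two endpoints of that edge. (For `ℓ = 1` the cycle
consists of two parallel edges.) -/
def ends (ℓ : ℕ) (j : Fin (2 * ℓ)) : Finset ℕ := {(j : ℕ), ((j : ℕ) + 1) % (2 * ℓ)}

/-- A matching: a set of pairwise disjoint edges. -/
def IsMatching (ℓ : ℕ) (M : Finset (Fin (2 * ℓ))) : Prop :=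
  ∀ e ∈ M, ∀ f ∈ M, e ≠ f → Disjoint (ends ℓ e) (ends ℓ f)

/-- The colour vector `p_M`: the number of edges of `M` of colour `c`. -/
def colourVec {h ℓ : ℕ} (col : Fin (2 * ℓ) → Fin h) (M : Finset (Fin (2 * ℓ))) (c : Fin h) : ℕ :=
  (M.filter (fun e => col e = c)).card

/-- `M_0 = {e_2, e_4, …, e_{2ℓ}}`. -/
def M0 (ℓ : ℕ) : Finset (Fin (2 * ℓ)) := univ.filter (fun j => Even ((j : ℕ) + 1))

/-- `M_1 = {e_1, e_3, …, e_{2ℓ-1}}`. -/
def M1 (ℓ : ℕ) : Finset (Fin (2 * ℓ)) := univ.filter (fun j => Odd ((j : ℕ) + 1))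

section aux

variable {ℓ : ℕ} [NeZero ℓ]

/-- the edge selected in slot `i`. -/
def edgeOf (z : ZMod ℓ → Bool) (i : ZMod ℓ) : Fin (2 * ℓ) :=
  ⟨2 * i.val + (if z i = true then 1 else 0), by
    have := ZMod.val_lt i
    split_ifs <;> omega⟩

lemma edgeOf_inj (z : ZMod ℓ → Bool) : Function.Injective (edgeOf z) := by
  intro i j hij
  have h1 : 2 * i.val + (if z i = true then 1 else 0) = 2 * j.val + (if z j = true then 1 else 0) :=
    congrArg Fin.val hij
  apply ZMod.val_injective ℓ
  split_ifs at h1 <;> omega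

lemma colourVec_image {h : ℕ} (col : Fin (2 * ℓ) → Fin h) (z : ZMod ℓ → Bool)
    (S : Finset (ZMod ℓ)) (c : Fin h) :
    colourVec col (S.image (edgeOf z)) c = ∑ i ∈ S, if col (edgeOf z i) = c then 1 else 0 := by
  unfold colourVec
  rw [Finset.card_filter, Finset.sum_image (fun i _ j _ hij => edgeOf_inj z hij)]

lemma M0_eq : M0 ℓ = univ.image (edgeOf (fun _ : ZMod ℓ => true)) := by
  ext j
  simp only [M0, Finset.mem_filter, Finset.mem_univ, true_and, Finset.mem_image]
  constructor
  · intro hj
    have h1 : (j : ℕ) / 2 < ℓ := by have := j.2; omega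
    refine ⟨((j : ℕ) / 2 : ℕ), ?_⟩
    apply Fin.ext
    simp only [edgeOf, if_true]
    rw [ZMod.val_natCast_of_lt h1]
    rw [Nat.even_iff] at hj
    omega
  · rintro ⟨i, rfl⟩
    simp only [edgeOf, if_true, Nat.even_iff]
    omega

lemma M1_eq : M1 ℓ = univ.image (edgeOf (fun _ : ZMod ℓ => false)) := by
  ext j
  simp only [M1, Finset.mem_filter, Finset.mem_univ, true_and, Finset.mem_image]
  constructor
  · intro hj
    have h1 : (j : ℕ) / 2 < ℓ := by have := j.2; omega
    refine ⟨((j : ℕ) / 2 : ℕ), ?_⟩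
    apply Fin.ext
    simp only [edgeOf, Bool.false_eq_true, if_false]
    rw [ZMod.val_natCast_of_lt h1]
    rw [Nat.odd_iff] at hj
    omega
  · rintro ⟨i, rfl⟩
    simp only [edgeOf, Bool.false_eq_true, if_false, Nat.odd_iff]
    omega

/-- removing the descents leaves a matching. -/
lemma matching_image (z : ZMod ℓ → Bool) (S : Finset (ZMod ℓ))
    (hS : ∀ i ∈ S, ¬ (z i = true ∧ z (i + 1) = false)) :
    IsMatching ℓ (S.image (edgeOf z)) := by
  -- two edges sharing a vertex
  have key : ∀ i ∈ S, ∀ j ∈ S, i ≠ j →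
      2 * i.val + (if z i = true then 1 else 0) ≠
        (2 * j.val + (if z j = true then 1 else 0) + 1) % (2 * ℓ) := by
    intro i _ j hj hij h1
    have hi2 : i.val < ℓ := ZMod.val_lt i
    have hj2 : j.val < ℓ := ZMod.val_lt j
    have hd := hS j hj
    have hne : i.val ≠ j.val := fun h => hij (ZMod.val_injective ℓ h)
    rcases Nat.lt_or_ge (2 * j.val + (if z j = true then 1 else 0) + 1) (2 * ℓ) with h2 | h2
    · rw [Nat.mod_eq_of_lt h2] at h1
      by_cases hzj : z j = true
      · rw [if_pos hzj] at h1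
        by_cases hzi : z i = true
        · rw [if_pos hzi] at h1; omega
        · rw [if_neg hzi] at h1
          have h3 : i.val = j.val + 1 := by omega
          have h4 : i = j + 1 := eq_succ_of_val h3
          apply hd
          refine ⟨hzj, ?_⟩
          rw [← h4]
          simpa using hzi
      · rw [if_neg hzj] at h1
        by_cases hzi : z i = true
        · rw [if_pos hzi] at h1; omega
        · rw [if_neg hzi] at h1; omega
    · by_cases hzj : z j = true
      · rw [if_pos hzj] at h1 h2
        have h3 : j.val + 1 = ℓ := by omega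
        have h4 : 2 * j.val + 1 + 1 = 2 * ℓ := by omega
        rw [h4, Nat.mod_self] at h1
        have h5 : i.val = 0 := by omega
        have h6 : i = 0 := (ZMod.val_eq_zero _).1 h5
        have h7 : z i ≠ true := by
          intro h8
          rw [if_pos h8] at h1; omega
        have h8 : j + 1 = 0 := by
          have h9 : ((j.val : ℕ) : ZMod ℓ) = j := ZMod.natCast_zmod_val j
          rw [← h9, ← Nat.cast_one, ← Nat.cast_add, h3, ZMod.natCast_self]
        apply hd
        refine ⟨hzj, ?_⟩
        rw [h8, ← h6]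
        simpa using h7
      · rw [if_neg hzj] at h2
        omega
  intro e he f hf hef
  rw [Finset.mem_image] at he hf
  obtain ⟨i, hi, rfl⟩ := he
  obtain ⟨j, hj, rfl⟩ := hf
  have hij : i ≠ j := by rintro rfl; exact hef rfl
  have hne : i.val ≠ j.val := fun h => hij (ZMod.val_injective ℓ h)
  have hi2 : i.val < ℓ := ZMod.val_lt i
  have hj2 : j.val < ℓ := ZMod.val_lt j
  rw [Finset.disjoint_left]
  intro x hx hy
  simp only [ends, edgeOf, Finset.mem_insert, Finset.mem_singleton] at hx hy
  rcases hx with hx | hx <;> rcases hy with hy | hy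
  · rw [hx] at hy
    split_ifs at hy <;> omega
  · exact key i hi j hj hij (hx.symm.trans hy)
  · exact key j hj i hi hij.symm (hy.symm.trans hx)
  · rw [hx] at hy
    have hA : 2 * i.val + (if z i = true then 1 else 0) < 2 * ℓ := by split_ifs <;> omega
    have hB : 2 * j.val + (if z j = true then 1 else 0) < 2 * ℓ := by split_ifs <;> omega
    have h1 : 2 * i.val + (if z i = true then 1 else 0) =
        2 * j.val + (if z j = true then 1 else 0) := by
      rcases Nat.lt_or_ge (2 * i.val + (if z i = true then 1 else 0) + 1) (2 * ℓ) with h2 | h2 <;>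
      rcases Nat.lt_or_ge (2 * j.val + (if z j = true then 1 else 0) + 1) (2 * ℓ) with h3 | h3
      · rw [Nat.mod_eq_of_lt h2, Nat.mod_eq_of_lt h3] at hy
        omega
      · have h4 : 2 * j.val + (if z j = true then 1 else 0) + 1 = 2 * ℓ := by omega
        rw [Nat.mod_eq_of_lt h2, h4, Nat.mod_self] at hy
        omega
      · have h4 : 2 * i.val + (if z i = true then 1 else 0) + 1 = 2 * ℓ := by omega
        rw [Nat.mod_eq_of_lt h3, h4, Nat.mod_self] at hy
        omega
      · omega
    split_ifs at h1 <;> omega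

/-- existence of the fractional selection. -/
lemma exists_frac {h : ℕ} (hh : 3 ≤ h) (a b : ZMod ℓ → Fin h) (α : ℝ) (hα0 : 0 ≤ α) (hα1 : α ≤ 1) :
    ∃ χ : ZMod ℓ → ℝ, (∀ i, 0 ≤ χ i) ∧ (∀ i, χ i ≤ 1) ∧ DescLE (h - 2) χ ∧
      ∀ c, ∑ i, χ i * (dvec (a i) (b i) c : ℝ) = α * ∑ i, (dvec (a i) (b i) c : ℝ) := by
  classical
  set D : Fin h → ℝ := fun c => ∑ i, (dvec (a i) (b i) c : ℝ) with hD
  by_cases hD0 : ∀ c, D c = 0
  · refine ⟨fun _ => 0, fun _ => le_rfl, fun _ => zero_le_one, ?_, ?_⟩
    · intro z hz1 _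
      have : univ.filter (fun i => z i = true ∧ z (i + 1) = false) = ∅ := by
        rw [Finset.filter_eq_empty_iff]
        intro i _ h
        exact absurd (hz1 i h.1) (lt_irrefl _)
      rw [this]; simp
    · intro c
      have := hD0 c
      simp only [hD] at this
      rw [this]; simp
  push Not at hD0
  obtain ⟨c0, hc0⟩ := hD0
  obtain ⟨c1, hc1⟩ : ∃ c1 : Fin h, c1 ≠ c0 := by
    have : Nontrivial (Fin h) := Fin.nontrivial_iff_two_le.2 (by omega)
    exact exists_ne c0
  have hcard : Fintype.card {c : Fin h // c ≠ c0 ∧ c ≠ c1} = h - 2 := by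
    rw [Fintype.card_subtype]
    have h1 : univ.filter (fun c : Fin h => c ≠ c0 ∧ c ≠ c1) = (univ.erase c0).erase c1 := by
      ext c; simp [and_comm]
    rw [h1, Finset.card_erase_of_mem, Finset.card_erase_of_mem (Finset.mem_univ _)]
    · simp; omega
    · simp [hc1]
  let e : Fin (h - 2) ≃ {c : Fin h // c ≠ c0 ∧ c ≠ c1} := (Fintype.equivFinOfCardEq hcard).symm
  obtain ⟨χ, hχ0, hχ1, hχD, hχl, hχg⟩ := frac_necklace (ℓ := ℓ) (m := h - 2) (by omega)
    (fun i j => (dvec (a i) (b i) (e j : Fin h) : ℝ) - D (e j : Fin h) / D c0 * (dvec (a i) (b i) c0 : ℝ))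
    (by
      intro j
      rw [Finset.sum_sub_distrib, ← Finset.mul_sum]
      change D (e j : Fin h) - D (e j : Fin h) / D c0 * D c0 = 0
      rw [div_mul_cancel₀ _ hc0, sub_self])
    (fun i => (dvec (a i) (b i) c0 : ℝ) / D c0)
    (by
      rw [← Finset.sum_div]
      exact div_self hc0) α hα0 hα1
  have e0 : ∑ i, χ i * (dvec (a i) (b i) c0 : ℝ) = α * D c0 := by
    rw [← hχl, Finset.sum_mul]
    apply Finset.sum_congr rfl
    intro i _
    field_simp
  have e2 : ∀ c, c ≠ c1 → ∑ i, χ i * (dvec (a i) (b i) c : ℝ) = α * D c := by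
    intro c hc
    by_cases hcc : c = c0
    · rw [hcc]; exact e0
    · obtain ⟨j, hj⟩ := e.surjective ⟨c, hcc, hc⟩
      have h1 := hχg j
      simp only [hj, mul_sub, Finset.sum_sub_distrib] at h1
      have h2 : ∑ i, χ i * (D c / D c0 * (dvec (a i) (b i) c0 : ℝ)) =
          D c / D c0 * ∑ i, χ i * (dvec (a i) (b i) c0 : ℝ) := by
        rw [Finset.mul_sum]
        apply Finset.sum_congr rfl
        intro i _; ring
      rw [h2, e0] at h1
      have h3 : D c / D c0 * (α * D c0) = α * D c := by field_simp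
      linarith
  refine ⟨χ, hχ0, hχ1, hχD, ?_⟩
  intro c
  change _ = α * D c
  by_cases hc : c = c1
  · subst hc
    have s1 : ∑ c', ∑ i, χ i * (dvec (a i) (b i) c' : ℝ) = 0 := by
      rw [Finset.sum_comm]
      apply Finset.sum_eq_zero
      intro i _
      rw [← Finset.mul_sum]
      have : ∑ c', (dvec (a i) (b i) c' : ℝ) = 0 := by exact_mod_cast sum_dvec (a i) (b i)
      rw [this, mul_zero]
    have s2 : ∑ c', α * D c' = 0 := by
      rw [← Finset.mul_sum]
      have : ∑ c', D c' = 0 := by
        simp only [hD]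
        rw [Finset.sum_comm]
        apply Finset.sum_eq_zero
        intro i _
        exact_mod_cast sum_dvec (a i) (b i)
      rw [this, mul_zero]
    rw [← Finset.add_sum_erase _ _ (Finset.mem_univ c)] at s1 s2
    have s3 : ∑ x ∈ univ.erase c, ∑ i, χ i * (dvec (a i) (b i) x : ℝ) =
        ∑ x ∈ univ.erase c, α * D x :=
      Finset.sum_congr rfl (fun x hx => e2 x (Finset.ne_of_mem_erase hx))
    linarith
  · exact e2 c hc

end aux

theorem result (h : ℕ) (hh : 3 ≤ h) (ℓ : ℕ) (hℓ : 1 ≤ ℓ) (col : Fin (2 * ℓ) → Fin h)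
    (k : Fin h → ℤ)
    (hk : ∃ lam : ℝ, 0 ≤ lam ∧ lam ≤ 1 ∧ ∀ c, (k c : ℝ) =
      lam * (colourVec col (M0 ℓ) c : ℝ) + (1 - lam) * (colourVec col (M1 ℓ) c : ℝ)) :
    ∃ M : Finset (Fin (2 * ℓ)), IsMatching ℓ M ∧ (ℓ : ℤ) - h + 2 ≤ (M.card : ℤ) ∧
      (∀ c, (colourVec col M c : ℤ) ≤ k c) ∧
      ∑ c, |(colourVec col M c : ℤ) - k c| ≤ (h : ℤ) - 2 := by
  classical
  have : NeZero ℓ := ⟨by omega⟩
  obtain ⟨lam, hl0, hl1, hk⟩ := hk
  let a : ZMod ℓ → Fin h := fun i => col (edgeOf (fun _ => false) i)
  let b : ZMod ℓ → Fin h := fun i => col (edgeOf (fun _ => true) i)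
  have hP0 : ∀ c, (colourVec col (M0 ℓ) c : ℤ) = ∑ i, if b i = c then 1 else 0 := by
    intro c
    rw [M0_eq, colourVec_image]
    push_cast
    rfl
  have hP1 : ∀ c, (colourVec col (M1 ℓ) c : ℤ) = ∑ i, if a i = c then 1 else 0 := by
    intro c
    rw [M1_eq, colourVec_image]
    push_cast
    rfl
  have hD : ∀ c, ∑ i, dvec (a i) (b i) c =
      (colourVec col (M0 ℓ) c : ℤ) - (colourVec col (M1 ℓ) c : ℤ) := by
    intro c
    rw [hP0, hP1, ← Finset.sum_sub_distrib]
    rfl
  obtain ⟨χ, hχ0, hχ1, hχD, hχ⟩ := exists_frac hh a b lam hl0 hl1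
  obtain ⟨z, hz1, hz2, hz3⟩ := rounding a b (fun c => k c - (colourVec col (M1 ℓ) c : ℤ)) _ χ hχ0 hχ1
    (by
      intro c
      rw [hχ c]
      have h1 : (∑ i, (dvec (a i) (b i) c : ℝ)) =
          (colourVec col (M0 ℓ) c : ℝ) - (colourVec col (M1 ℓ) c : ℝ) := by
        exact_mod_cast hD c
      rw [h1]
      push_cast
      rw [hk c]
      ring) le_rfl
  have hdesc := hχD z hz1 hz2
  set S := (univ.filter (fun i => z i = true ∧ z (i + 1) = false))ᶜ with hS
  have hSc : S.card + (univ.filter (fun i => z i = true ∧ z (i + 1) = false)).card = ℓ := by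
    rw [hS, Finset.card_compl_add_card, ZMod.card]
  -- the colour vector of the whole selection
  have hfull : ∀ c, (∑ i, if col (edgeOf z i) = c then (1 : ℤ) else 0) = k c := by
    intro c
    have h1 := hz3 c
    have h2 : ∀ i, (if col (edgeOf z i) = c then (1 : ℤ) else 0) =
        (if a i = c then 1 else 0) + (if z i = true then dvec (a i) (b i) c else 0) := by
      intro i
      by_cases hzi : z i = true
      · have h3 : edgeOf z i = edgeOf (fun _ => true) i := by
          apply Fin.ext; simp [edgeOf, hzi]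
        rw [h3, if_pos hzi]
        simp only [dvec, b]
        ring
      · have h3 : edgeOf z i = edgeOf (fun _ => false) i := by
          apply Fin.ext; simp [edgeOf, hzi]
        rw [h3, if_neg hzi]
        simp only [a]
        ring
    rw [Finset.sum_congr rfl (fun i _ => h2 i), Finset.sum_add_distrib, h1, ← hP1 c]
    ring
  have hcv : ∀ c, (colourVec col (S.image (edgeOf z)) c : ℤ) =
      ∑ i ∈ S, if col (edgeOf z i) = c then (1 : ℤ) else 0 := by
    intro c
    rw [colourVec_image]
    push_cast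
    rfl
  have hle : ∀ c, (colourVec col (S.image (edgeOf z)) c : ℤ) ≤ k c := by
    intro c
    rw [hcv c, ← hfull c]
    apply Finset.sum_le_sum_of_subset_of_nonneg (Finset.subset_univ _)
    intro i _ _
    split_ifs <;> norm_num
  have hcardM : (S.image (edgeOf z)).card = S.card :=
    Finset.card_image_of_injective _ (edgeOf_inj z)
  refine ⟨S.image (edgeOf z), ?_, ?_, hle, ?_⟩
  · apply matching_image
    intro i hi hcon
    rw [hS, Finset.mem_compl] at hi
    exact hi (Finset.mem_filter.2 ⟨Finset.mem_univ _, hcon⟩)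
  · rw [hcardM]
    omega
  · have h1 : ∑ c, |(colourVec col (S.image (edgeOf z)) c : ℤ) - k c| =
        ∑ c, (k c - (colourVec col (S.image (edgeOf z)) c : ℤ)) := by
      apply Finset.sum_congr rfl
      intro c _
      rw [abs_of_nonpos (by linarith [hle c])]
      ring
    rw [h1, Finset.sum_sub_distrib]
    have h2 : ∑ c, k c = ℓ := by
      rw [← Finset.sum_congr rfl (fun c _ => hfull c), Finset.sum_comm]
      simp
    have h3 : ∑ c, (colourVec col (S.image (edgeOf z)) c : ℤ) = S.card := by
      rw [Finset.sum_congr rfl (fun c _ => hcv c), Finset.sum_comm]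
      simp
    rw [h2, h3]
    omega

end Pool.Agent.Results.MP_476501_co.EvenCycleColourMatching
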